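import Pool.Agent.BED.Stmts

/-!
# Squad BEJ (MP_be01ff_an): every disc of the plane, every even `α`. Definitions.
-/

namespace Pool.Agent.BEJ

open Set Filter Topology MeasureTheory
open scoped InnerProductSpace ENNReal
open Pool.Agent.BE01 Pool.Agent.BED
open Pool.Agent.BEO (Pl BB ev lap rho)

noncomputable section

/-- `E(t) = e^(iπ/4) (1 + i t²/2)^(-1/2)`. -/
def EE (t : ℝ) : ℂ :=
  Complex.exp (Real.pi / 4 * Complex.I) * (1 + Complex.I * (t : ℂ) ^ 2 / 2) ^ (-(1 / 2 : ℂ))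

/-- `Q_j(x) = ∫_0^∞ t^(2j) e^(-x t²) E(t) dt`. -/
def QQ (j : ℕ) (x : ℝ) : ℂ :=
  ∫ t in Ioi (0 : ℝ), ((t ^ (2 * j) * Real.exp (-x * t ^ 2) : ℝ) : ℂ) * EE t

/-- `y(x) = Im (e^(ix) Q_0(x))`, a multiple of `J_0(x)`. -/
def yy (x : ℝ) : ℝ := (Complex.exp (x * Complex.I) * QQ 0 x).im

/-- The derivative of `y`. -/
def y1 (x : ℝ) : ℝ := (Complex.exp (x * Complex.I) * (Complex.I * QQ 0 x - QQ 1 x)).im

/-- The second derivative of `y`. -/
def y2 (x : ℝ) : ℝ :=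
  (Complex.exp (x * Complex.I) * (- QQ 0 x - 2 * Complex.I * QQ 1 x + QQ 2 x)).im

end

end Pool.Agent.BEJ
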