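import Pool.Agent.BEJ.Defs

/-!
# Squad BEJ (MP_be01ff_an): every disc of the plane, every even `α`. Statements.

THEOREM. For all `R > 0`, `a > 0`, `p ≥ 1` the disc of radius `R` has a strong solution with the final
state rate, `α = 2p`. PAPER. Squad BED reduced it to: for the radial eigenfunction `J_0(x |y|/R)`,
`J_0(x) = 0`, the order `N` needed is `≤ C_p x` (row ORX), and we need `J_0(n x) ≠ 0` for odd
`3 ≤ n ≤ 1 + 2pN ≤ C x`. The zeros of `J_0` are `x = π k - π/4 + 1/(8x) + O(x^(-3))` (rows EEB … ZAS,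
from the integral representation `J_0(x) = c Im (e^(ix) ∫_0^∞ e^(-x t²) E(t) dt)`). If `J_0(x) =
J_0(n x) = 0`, `n` odd, `3 ≤ n ≤ C x`, then (row NRX) `n = j (4π² k - π²) + 1/n + O(1/x)` with an integer
`1 ≤ j ≤ C/(4π) + 1`; as `π²` is irrational, there are arbitrarily large `k` with `4π² k - π²` very
close to an even integer, and then `n` would be even: contradiction.

All the rows can be started at once: `uses` = hypotheses of your theorem, in this order.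
-/

namespace Pool.Agent.BEJ

open Set Filter Topology MeasureTheory
open scoped InnerProductSpace ENNReal
open Pool.Agent.BE01 Pool.Agent.BED
open Pool.Agent.BEO (Pl BB ev lap rho)

noncomputable section

/-- EEB (no hypotheses). `|E|² = (1 + t⁴/4)^(-1/2) ≤ 1`, `E² = i/(1 + i t²/2) = (t²/2 + i)/(1 + t⁴/4)`.
`arg E = π/4 - arg(1 + i t²/2)/2 ∈ (0, π/4]` (`arg (1 + i t²/2) ∈ [0, π/2)`), so `E = a + i b` with
`0 ≤ b ≤ a`, and `2ab = 1/(1 + t⁴/4)`: `b² ≤ ab`, so `b ≤ (2 (1 + t⁴/4))^(-1/2) ≤ 1/(1 + t²/2)`.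
Derivative: chain rule for `cpow` (`1 + i t²/2` is in the slit plane). Last one: `f(s) =
(1 + s z)^(-1/2)`, `z = i t²/2`, `0 ≤ s ≤ 1`: `f(0) = 1`, `f'(0) = - z/2`, `f''(0)/2 = 3z²/8`,
`|f'''| ≤ (15/8) |z|³` (`|1 + s z| ≥ 1`); Taylor (`taylor_mean_remainder_bound`). -/
def EebStmt : Prop := (∀ t : ℝ, ‖EE t‖ ≤ 1) ∧ (∀ t : ℝ, 0 ≤ (EE t).im ∧ (EE t).im ≤ 3 / (1 + t ^ 2)) ∧
  Continuous EE ∧
  (∀ t : ℝ, HasDerivAt EE (-(Complex.I * t / 2) / (1 + Complex.I * (t : ℂ) ^ 2 / 2) * EE t) t) ∧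
  ∃ C : ℝ, ∀ t : ℝ, ‖EE t - Complex.exp (Real.pi / 4 * Complex.I) *
    (1 - Complex.I * (t : ℂ) ^ 2 / 4 - 3 * (t : ℂ) ^ 4 / 32)‖ ≤ C * t ^ 6

/-- QDE (uses EEB). Differentiation under the integral sign
(`hasDerivAt_integral_of_dominated_loc_of_deriv_le`; domination on `(x/2, 2x)` by
`t^(2j+2) e^(-x t²/2)`). The equation: with `G(t) = - (t/2)(t² - 2i) E(t)` one has
`(e^(-x t²) G)' = e^(-x t²) E (x t⁴ - (2ix + 1) t² + i)` (`E' = - (it/2) E/(1 + it²/2)`, `t² - 2i = -2i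
(1 + it²/2)`), `G(0) = 0`, limit `0` at infinity (`integral_Ioi_of_hasDerivAt_of_tendsto`). -/
def QdeStmt : Prop := (∀ (j : ℕ) (x : ℝ), 0 < x →
    IntegrableOn (fun t : ℝ => ((t ^ (2 * j) * Real.exp (-x * t ^ 2) : ℝ) : ℂ) * EE t) (Ioi 0)) ∧
  (∀ (j : ℕ) (x : ℝ), 0 < x → HasDerivAt (QQ j) (- QQ (j + 1) x) x) ∧
  ∀ x : ℝ, 0 < x → x * QQ 2 x - (2 * Complex.I * x + 1) * QQ 1 x + Complex.I * QQ 0 x = 0

/-- YDE (uses QDE). Product rule; the equation is the imaginary part of `e^(ix)` times that of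
QDE. -/
def YdeStmt : Prop := ∀ x : ℝ, 0 < x → HasDerivAt yy (y1 x) x ∧ HasDerivAt y1 (y2 x) x ∧
  x * y2 x + y1 x + x * yy x = 0

/-- YLZ: behaviour at `0` (uses EEB QDE). With `E = a + i b`, `0 ≤ a ≤ 1`, `0 ≤ b ≤ 3/(1+t²)`:
`y = sin x ∫ e^(-xt²) a + cos x ∫ e^(-xt²) b`, `∫ e^(-xt²) = (π/x)^(1/2)/2`: the first term is `≤
x (π/x)^(1/2)/2`, the second `≤ ∫ 3/(1+t²) = 3π/2`. `x y1 = x Im(i e^(ix) Q_0) - x sin x ∫ t² e^(-xt²) a -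
x cos x ∫ t² e^(-xt²) b`: `≤ x (π/x)^(1/2)/2 + x² ∫ t² e^(-xt²) + 3 x ∫ e^(-xt²)` (`t² b ≤ 3`), and
`∫ t² e^(-xt²) = (π)^(1/2) x^(-3/2)/4`. -/
def YlzStmt : Prop := (∃ C : ℝ, ∀ x : ℝ, 0 < x → x ≤ 1 → |yy x| ≤ C) ∧
  ∃ C : ℝ, ∀ x : ℝ, 0 < x → x ≤ 1 → |x * y1 x| ≤ C * Real.sqrt x

/-- WAS: behaviour at infinity (uses EEB). Multiply the last estimate of EEB by `e^(-xt²)` and
integrate: `∫ e^(-xt²) = (π)^(1/2) x^(-1/2)/2`, `∫ t² e^(-xt²) = (π)^(1/2) x^(-3/2)/4`,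
`∫ t⁴ e^(-xt²) = 3 (π)^(1/2) x^(-5/2)/8`, `∫ t⁶ e^(-xt²) = 15 (π)^(1/2) x^(-7/2)/16` (Gamma function:
`integral_rpow_mul_exp_neg_mul_rpow`, or integration by parts). -/
def WasStmt : Prop := ∃ C : ℝ, ∀ x : ℝ, 1 ≤ x →
  ‖((2 * Real.sqrt (x / Real.pi) : ℝ) : ℂ) * Complex.exp (-(Real.pi / 4 * Complex.I)) * QQ 0 x -
    (1 - Complex.I / (8 * x) - 9 / (128 * (x : ℂ) ^ 2))‖ ≤ C / x ^ 3

/-- YJ0: `y` is a multiple of `J_0` (uses JDE of BED, YDE, YLZ, WAS). `W(x) = x (y j0' - y1 j0)`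
has `W' = 0` on `(0, ∞)` and limit `0` at `0` (`|W| ≤ x C + C x^(1/2)`, `j0, j0'` bounded), so `W = 0`.
`j0 > 0` on some `(0, 2η)` (`j0 0 = 1`, continuity), so `y / j0` is constant `= c` there. `z = y - c j0`
satisfies the same equation, `(z² + z'²)' = - 2 z'²/x ≤ 0`, and vanishes at `η`: `z = 0` on `[η, ∞)`,
hence on `(0, ∞)`. `c ≠ 0`: otherwise `y = 0`, but for `x + π/4 = π/2 + 2πm`, `m` large,
`y(x) = (π/x)^(1/2)/2 · Im(e^(i(x+π/4)) w) = (π/x)^(1/2)/2 · Re w ≠ 0`, with `w → 1` by WAS. -/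
def Yj0Stmt : Prop := ∃ c : ℝ, c ≠ 0 ∧ ∀ x : ℝ, 0 < x → yy x = c * j0 x

/-- ZAS: the zeros of `J_0` (uses YDE, WAS, YJ0). With `w` the product in WAS, `y(x) = (π/x)^(1/2)/2 ·
Im(e^(iξ) w)`, `ξ = x + π/4`, so `J_0(x) = 0` iff `sin ξ Re w = - cos ξ Im w`. `Re w = 1 + O(x^(-2))`,
`- Im w = 1/(8x) + O(x^(-3))`. So at a zero (`cos ξ ≠ 0` for large `x`) `tan ξ = 1/(8x) + O(x^(-3))` and
`ξ = π m + 1/(8x) + O(x^(-3))` (`arctan`, `|arctan s - s| ≤ |s|³`; or with `η = ξ - πm ∈ (-π/2, π/2)`,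
`|sin η| ≤ C/x` gives `|η| ≤ C/x`, then `|sin η - η| ≤ |η|³`). Existence: `Im(e^(iξ) w)` is
continuous and has opposite signs at `ξ = πk ∓ π/2` for `k` large: a zero `x` between, and the integer
`m` of the first part is `k` (`|ξ - πk| ≤ π/2` and `|ξ - πm| ≤ C/x`). `x ≥ πk - 3π/4 ≥ k` for `k ≥ 2`. -/
def ZasStmt : Prop := ∃ (C : ℝ) (X : ℕ), 0 < C ∧ 1 ≤ X ∧
  (∀ x : ℝ, (X : ℝ) ≤ x → j0 x = 0 → ∃ m : ℤ,
    |x + Real.pi / 4 - 1 / (8 * x) - Real.pi * m| ≤ C / x ^ 3) ∧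
  ∀ k : ℕ, X ≤ k → ∃ x : ℝ, (k : ℝ) ≤ x ∧ j0 x = 0 ∧
    |x + Real.pi / 4 - 1 / (8 * x) - Real.pi * k| ≤ C / x ^ 3

/-- PI2 (uses, imported, `Pool.Agent.BEB.H93.hli : HliStmt`, Hermite-Lindemann). If `π²` is rational
then `iπ` is algebraic and `e^(iπ) = -1`. -/
def Pi2Stmt : Prop := Irrational (Real.pi ^ 2)

/-- DIO: (uses PI2). The multiples of `2π²` modulo 1 are dense: for `δ > 0` there is `q ≥ 1` with
`0 < |2π² q - r| ≤ δ` for an integer `r` (Dirichlet, `Real.exists_nat_abs_mul_sub_round_le`,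
irrationality); the numbers `2π² (N + q i) - π²/2`, `i = 0, 1, 2, …` modulo 1 move by steps `≤ δ` in one
direction, so one of them is at distance `≤ δ` from an integer. -/
def DioStmt : Prop := ∀ (ε : ℝ) (N : ℕ), 0 < ε → ∃ (k : ℕ) (e : ℤ), N ≤ k ∧
  |4 * Real.pi ^ 2 * k - Real.pi ^ 2 - 2 * e| ≤ ε

/-- NRX: zeros without resonances (uses ZAS, DIO). Let `C0, X0` be those of ZAS, `C ≥ 1`,
`J = C/(4π) + 1`, `J ε ≤ 1/8`; `k` large and `e` from DIO, `x` from ZAS for `k`. Let `n` be odd,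
`3 ≤ n ≤ C x`, `j0 (n x) = 0`, `m` the integer of ZAS for `n x`. Subtracting `n` times the estimate
for `x` from that for `n x`: `|n/(8x) - 1/(8nx) - π ((n-1)/4 - (nk - m))| ≤ 2 n C0/x³`. Multiply by
`4/π`: `D = (n-1) - 4(nk-m)` is an even integer and `|n/(2πx) - 1/(2πnx) - D| ≤ (8 C0/π) n/x³`. As
`n/(2πx) - 1/(2πnx) ≥ (8/9) n/(2πx)`, `D > 0` for `x² > 18 C0`, so `D = 2j`, `j ≥ 1`, and `j ≤ J` for
`x` large. Multiply by `2πx`: `|n - 1/n - 4πx j| ≤ 16 C0 n/x² ≤ 16 C0 C/x`; so `n ≥ 4πx - 1` is large,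
`1/n ≤ 1/8`; `|4πx - (4π²k - π²)| ≤ (π/2 + 4π C0)/x`; so `|n - j (4π²k - π²)| ≤ 1/8 + (16 C0 C +
J (π/2 + 4π C0))/x ≤ 1/4`, and `|n - 2 e j| ≤ 1/4 + Jε < 1`: `n = 2ej` is even, contradiction. -/
def NrxStmt : Prop := ∀ C X : ℝ, ∃ x : ℝ, X ≤ x ∧ 1 ≤ x ∧ j0 x = 0 ∧
  ∀ n : ℕ, Odd n → 3 ≤ n → (n : ℝ) ≤ C * x → j0 (n * x) ≠ 0

/-- JSB: (uses JTA of BED, EEB, YJ0). For `s ≥ 1`: `|c j0 s| = |yy s| ≤ |Q_0(s)| ≤ ∫ e^(-st²) =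
(π/s)^(1/2)/2`. For `0 < s ≤ 1`: `|j0 s| ≤ 2` (JTA with `N = 0`: `|j0 s| ≤ |bj 0| = 1`). -/
def JsbStmt : Prop := ∃ C : ℝ, 0 < C ∧ ∀ s : ℝ, 0 < s → s * j0 s ^ 2 ≤ C

/-- JAB: (uses JTA, JDE of BED). `E = j0² + j0'²`: `x E' = - 2 j0'²`, so `E` is nonincreasing on
`[0, ∞)`, `E(0) = 1` (`j0 0 = 1`, `j0' 0 = 0` by the equation at `0`), `j0` is even. `(x² E)' =
2 x j0² ≥ 0` and `x² E > 0` for small `x > 0`, so `E > 0` on `(0, ∞)`. -/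
def JabStmt : Prop := (∀ x, |j0 x| ≤ 1) ∧ ∀ x, 0 < x → j0 x = 0 → deriv j0 x ≠ 0

/-- ORX: the order (uses JLB of BED, JSB, JAB; compare the row ORD of BED,
`Pool/Agent/Helper19_BED/ORD.lean`). `∫ φ^m = 2V (R/x)² ∫_0^x s j0(s)^m ds`, `V` the area of the unit
disc (`integral_fun_norm_addHaar`, substitution). `∫_0^x s j0² ≤ C1 x` (JSB), `∫_0^x s j0^(2p+2) ≥
∫_0^1 s (3/4)^(2p+2) = (3/4)^(2p+2)/2` (JLB). So `C = (2p+1) C1 2 (4/3)^(2p+2)/(p cp p) + 1`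
(`Pool.Agent.Helper70BE01Scl.cp_pos`). -/
def OrxStmt : Prop := ∀ p : ℕ, 1 ≤ p → ∃ C : ℝ, 0 < C ∧ ∀ (R x : ℝ)
  (φ : Lp ℝ 2 (mu (BB 2 R))), 0 < R → 1 ≤ x → (φ =ᵐ[mu (BB 2 R)] fun y => j0 (x * ‖y‖ / R)) →
  (∀ᵐ y ∂(mu (BB 2 R)), |φ y| ≤ 1) ∧ ∀ N : ℕ, C * x ≤ N →
    (2 * p + 1) * (1 : ℝ) ^ (2 * p) * ∫ y, φ y ^ 2 ∂(mu (BB 2 R)) <
      N * (p * cp p * ∫ y, φ y ^ (2 * p + 2) ∂(mu (BB 2 R)))

/-- DSA: every disc, every even `α` (uses FN3, SPD, PHR of BED, NRX, JAB, ORX; compare the row DSC of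
BED). `C1` from ORX, `x` from NRX for the constant `1 + 2p + 2p C1`, `N = ⌈C1 x⌉`, `1 + 2pN ≤ (1 + 2p
+ 2p C1) x`; then as DSC. -/
def DsaStmt : Prop := ∀ (R a : ℝ) (p : ℕ), 0 < R → 0 < a → 1 ≤ p → Rat (BB 2 R) a p

end

end Pool.Agent.BEJ
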